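import Pool.Agent.LibRC21.R6

set_option autoImplicit false

namespace Pool.Agent.Results.MP_e734ed_nt.ConductorBound

/-- All integral points of all Mordell curves `y ^ 2 = x ^ 3 + k`, `k ≠ 0`: `log max (|x|, |y|)` is at most
`C |k| ^ (1 / 2) (log (|k| + 2)) ^ κ`. More precisely, let `D` be the product over the primes `p` dividing `k` of `p ^ 2` if `p`
divides `x`, of `p` if `p` does not divide `x` and the exponent of `p` in `k` is odd, and of `1` otherwise. Then `D` divides `k`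
and `log max (|x|, |y|)` is at most `C D ^ (1 / 2) log (|k| + 2) (log (D log (|k| + 2) + 2)) ^ κ`. -/
theorem result : ∃ C : ℝ, 0 < C ∧ ∃ κ : ℕ, ∀ x y k : ℤ, y ^ 2 = x ^ 3 + k → k ≠ 0 →
    Real.log (max |(x : ℝ)| |(y : ℝ)|) ≤ C * √|(k : ℝ)| * Real.log (|(k : ℝ)| + 2) ^ κ ∧
    ∀ D : ℕ, D = ∏ p ∈ k.natAbs.primeFactors,
        p ^ (if (p : ℤ) ∣ x then 2 else k.natAbs.factorization p % 2) →
      D ∣ k.natAbs ∧ Real.log (max |(x : ℝ)| |(y : ℝ)|) ≤ C * √(D : ℝ) *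
        Real.log (|(k : ℝ)| + 2) * Real.log ((D : ℝ) * Real.log (|(k : ℝ)| + 2) + 2) ^ κ :=
  Pool.Agent.LibRC21.final2

end Pool.Agent.Results.MP_e734ed_nt.ConductorBound
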