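import Mathlib
import Pool.Agent.LibRC91.F3

/-!
# Weak Hall for 100% of the integers `k`, ordered by radical

The family: the integers `k ≠ 0` without prime sixth power divisors whose radical (the product of the primes
dividing `k`) is at most `R`. (i) it is finite and has at least `c R (log R)^4` elements; (ii) for `0 < ε < 1` at most
`C R (log R)^3 (1 + log (1 + log R))` of them admit integers `x, y` with `y^2 - x^3 = k` and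
`|k| < |x|^(1-ε)`. There is no bound on `x`.
-/

set_option autoImplicit false

namespace Pool.Agent.Results.MP_e734ed_nt.HallByRadical

theorem result :
    (∀ R : ℕ, {k : ℤ | k ≠ 0 ∧ (∀ p : ℕ, p.Prime → ¬ ((p : ℤ) ^ 6 ∣ k)) ∧
      ∏ p ∈ k.natAbs.primeFactors, p ≤ R}.Finite) ∧
    (∃ c : ℝ, 0 < c ∧ ∀ R : ℕ, 2 ≤ R →
      c * R * (Real.log R) ^ 4 ≤
        ({k : ℤ | k ≠ 0 ∧ (∀ p : ℕ, p.Prime → ¬ ((p : ℤ) ^ 6 ∣ k)) ∧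
          ∏ p ∈ k.natAbs.primeFactors, p ≤ R}.ncard : ℝ)) ∧
    ∀ ε : ℝ, 0 < ε → ε < 1 → ∃ C : ℝ, ∀ R : ℕ, 3 ≤ R →
      ({k : ℤ | k ≠ 0 ∧ (∀ p : ℕ, p.Prime → ¬ ((p : ℤ) ^ 6 ∣ k)) ∧
          ∏ p ∈ k.natAbs.primeFactors, p ≤ R ∧
          ∃ x y : ℤ, y ^ 2 - x ^ 3 = k ∧ (|k| : ℝ) < (|x| : ℝ) ^ (1 - ε)}.ncard : ℝ) ≤
        C * R * (Real.log R) ^ 3 * (1 + Real.log (1 + Real.log R)) := by
  refine ⟨fun R => RC91.QI_famfin R, RC91.QI_low, fun ε h0 h1 => ?_⟩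
  obtain ⟨C, _, hC⟩ := RC91.F3 ε h0 h1
  refine ⟨C, fun R hR => ?_⟩
  have e : {k : ℤ | k ≠ 0 ∧ (∀ p : ℕ, p.Prime → ¬ ((p : ℤ) ^ 6 ∣ k)) ∧
      ∏ p ∈ k.natAbs.primeFactors, p ≤ R ∧
      ∃ x y : ℤ, y ^ 2 - x ^ 3 = k ∧ (|k| : ℝ) < (|x| : ℝ) ^ (1 - ε)} =
      {k : ℤ | k ∈ RC91.Fam R ∧ ∃ x y : ℤ, RC91.BadPt ε k x y} := by
    ext k
    constructor
    · rintro ⟨a, b, c, d⟩
      exact ⟨⟨a, b, c⟩, d⟩
    · rintro ⟨⟨a, b, c⟩, d⟩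
      exact ⟨a, b, c, d⟩
  rw [e]
  exact hC R hR

end Pool.Agent.Results.MP_e734ed_nt.HallByRadical
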