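import Pool.Agent.LibUM24.W5
import Pool.Agent.LibDM24.MO
import Pool.Agent.LibDP24.H6

/-!
# MP_e734ed_nt: Hall's inequality for every `k`, up to `3 * 2 ^ r - 2 r - 3` pairs of points, `r` the rank

For every `ε > 0` there is `C` such that for every `k ≠ 0`, every `r` and every subgroup `Γ` of rank at most `r` of the group of
rational points of `y² = x³ + k` (for instance the whole group) all integral points `(x, y)` of `Γ` except at most
`3 * 2 ^ r - 2 r - 3` pairs `(x, ± y)` satisfy `|x| ≤ C |k| ^ (5 / 6 + ε)`. (Hall's inequality is the exponent `2`.)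

Proof. `x³ / k` is doubled by the fixed map `X (X - 8)³ / (64 (X + 1)³)`, so the canonical height is one third of the height of
`x³ / k` up to an absolute constant and is bounded below absolutely. With our bound `log |x| ≤ C |k| ^ (1 / 2 + ε)` and
Dirichlet's theorem dependent integral points have small relations; large points are so close to the point at infinity
that these relations are exact. Relations modulo `2` and the parallelogram law bound the number of points with
`log |x| ≤ |k| ^ δ` and the number of the others; both layers cannot have full rank (multiples of a point of the lower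
layer). If `r` is large, integral points of comparable size make an angle with `cos² ≤ 49 / 100`, and a linear programming
bound gives less than `2 ^ r` points (`Pool/Agent/LibUM24`, `LibHU64`, `LibDM24`, `LibDP24`).
-/

set_option autoImplicit false

namespace Pool.Agent.Results.MP_e734ed_nt.RankExceptions

theorem result : ∀ ε : ℝ, 0 < ε → ∃ C : ℝ, 0 < C ∧ ∀ (r : ℕ) (k : ℤ), k ≠ 0 →
    ∀ Γ : AddSubgroup (⟨0, 0, 0, 0, (k : ℚ)⟩ : WeierstrassCurve ℚ).toAffine.Point,
      Module.rank ℤ Γ ≤ r →
      ∃ X : Finset ℤ, X.card + 2 * r + 3 ≤ 3 * 2 ^ r ∧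
        ∀ (x y : ℤ) (h : (⟨0, 0, 0, 0, (k : ℚ)⟩ : WeierstrassCurve ℚ).toAffine.Nonsingular
            (x : ℚ) (y : ℚ)),
          WeierstrassCurve.Affine.Point.some (x : ℚ) (y : ℚ) h ∈ Γ → x ∉ X →
            |(x : ℝ)| ≤ C * |(k : ℝ)| ^ ((5 : ℝ) / 6 + ε) := by
  intro ε hε
  obtain ⟨C, hC, H⟩ := Pool.Agent.LibUM24.finalUM Pool.Agent.LibDP24.pb Pool.Agent.LibDM24.cb ε hε
  refine ⟨C, hC, fun r k hk => H r k hk _ ?_⟩
  simp [Pool.Agent.LibDP24.E]

end Pool.Agent.Results.MP_e734ed_nt.RankExceptions
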