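import Pool.Agent.LibER91.Final3

set_option autoImplicit false

namespace Pool.Agent.Results.MP_e734ed_nt.UniformPowerSaving

/-- Power saving for the number of all integral solutions with `log |x| ≤ K ^ (1 / 4 - ε)` of all
the equations `y ^ 2 = x ^ 3 + k`, `0 < |k| ≤ K`. -/
theorem result : ∀ ε : ℝ, 0 < ε → ∃ δ : ℝ, 0 < δ ∧ ∃ c : ℝ, 0 < c ∧ ∀ K : ℝ, 1 ≤ K →
    {p : ℤ × ℤ | p.2 ^ 2 ≠ p.1 ^ 3 ∧ |((p.2 ^ 2 - p.1 ^ 3 : ℤ) : ℝ)| ≤ K ∧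
      |(p.1 : ℝ)| ≤ Real.exp (K ^ (1 / 4 - ε))}.Finite ∧
    ({p : ℤ × ℤ | p.2 ^ 2 ≠ p.1 ^ 3 ∧ |((p.2 ^ 2 - p.1 ^ 3 : ℤ) : ℝ)| ≤ K ∧
      |(p.1 : ℝ)| ≤ Real.exp (K ^ (1 / 4 - ε))}.ncard : ℝ) ≤ c * K ^ (1 - δ) :=
  fun ε hε => Pool.Agent.LibER91.red3_pairs Pool.Agent.LibER91.pencil3 ε hε

end Pool.Agent.Results.MP_e734ed_nt.UniformPowerSaving
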